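import Pool.Agent.H64.FB.Targets

/-!
# MP_2059f1_ag, block F: module F-EX (spheres which die in `B` come from the fibre)
-/

open Topology Set
open Pool.Agent.H59 Pool.Agent.H64.LB Pool.Agent.H93.FB Pool.Agent.H64.FB
open scoped unitInterval ContinuousMap Topology.Homotopy

namespace Pool.Agent.H73.FB

theorem ex (hSTF : T_STF) : T_EXF := by
  intro A B _ _ _ f a₀ k p p' hpp hnull
  obtain ⟨H⟩ := hnull
  have hHb : ∀ (t : I) (y : Fin (k + 1) → I), y ∈ Cube.boundary (Fin (k + 1)) →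
      H (t, y) = f a₀ := by
    intro t y hy
    have h1 := H.eq_fst t hy
    rw [h1]
    exact p'.2 y hy
  let g : C((Fin (k + 1) → I) × I, B) := ⟨fun q => H (q.2, q.1), by fun_prop⟩
  have hg0 : ∀ x, g (x, 0) = f (p.1 x) := by
    intro x
    change H (0, x) = _
    rw [H.apply_zero]
    exact hpp x
  let Φ : C((Fin (k + 1) → I), EE f) := EE.fam p.1 g hg0
  have hend : ∀ x, EE.endp f (Φ x) = f a₀ := by
    intro x
    change H (1, x) = _
    rw [H.apply_one]
    rfl
  have hbd : ∀ y ∈ Cube.boundary (Fin (k + 1)), Φ y = starE f a₀ := by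
    intro y hy
    refine EE.ext' (p.2 y hy) (fun t => ?_)
    change H (t, y) = f a₀
    exact hHb t y hy
  have h0 : (fun _ => 0 : Fin (k + 1) → I) ∈ Cube.boundary (Fin (k + 1)) := ⟨0, Or.inl rfl⟩
  have hcl : ∀ x, clf f a₀ (Φ x) = BT.one (f a₀) := by
    refine hSTF A B f a₀ (Fin (k + 1) → I) Φ (fun _ => 0) hend ?_
    rw [hbd _ h0]
    exact clf_starE f a₀
  refine ⟨⟨⟨fun y => ⟨Φ y, hcl y⟩, Φ.continuous.subtype_mk _⟩, ?_⟩, fun y => rfl⟩
  intro y hy
  exact Subtype.ext (hbd y hy)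

end Pool.Agent.H73.FB
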