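import Pool.Agent.H64.FB.Targets

/-!
# MP_2059f1_ag, block F: module F-FPC (the fibre is path connected)
-/

open Topology Set
open Pool.Agent.H59 Pool.Agent.H64.LB Pool.Agent.H93.FB Pool.Agent.H64.FB
open scoped unitInterval ContinuousMap Topology.Homotopy

namespace Pool.Agent.H73.FB

/-- a family over the interval with constant end point joins its ends in the fibre -/
theorem joined_of_fam (hSTF : T_STF) {A B : Type} [TopologicalSpace A] [TopologicalSpace B]
    [SimplyConnectedSpace A] (f : C(A, B)) (a₀ : A) (Φ : C(I, EE f))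
    (hend : ∀ s, EE.endp f (Φ s) = f a₀) (e e' : F0 f a₀) (h0 : Φ 0 = e.1) (h1 : Φ 1 = e'.1) :
    Joined e e' := by
  have hcl : ∀ s, clf f a₀ (Φ s) = BT.one (f a₀) := by
    refine hSTF A B f a₀ I Φ 0 hend ?_
    rw [h0]
    exact e.2
  exact ⟨⟨⟨fun s => ⟨Φ s, hcl s⟩, Φ.continuous.subtype_mk _⟩, Subtype.ext h0, Subtype.ext h1⟩⟩

/-- a point over `a₀` in the fibre is joined to the base point -/
theorem joined_star (hSTF : T_STF) {A B : Type} [TopologicalSpace A] [TopologicalSpace B]
    [SimplyConnectedSpace A] (f : C(A, B)) (a₀ : A) (e : F0 f a₀) (he : EE.pa f e.1 = a₀) :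
    Joined e (star f a₀) := by
  obtain ⟨⟨⟨a, ω⟩, hω⟩, hcl⟩ := e
  change a = a₀ at he
  subst he
  change ω 0 = f a at hω
  -- the class of the path
  have hend : ω 1 = f a := congrArg Sigma.fst hcl
  obtain ⟨h, h2⟩ := BT.ext_iff'.1 hcl
  set pt : Path (f a) (ω 1) := EE.pth (f := f) ⟨(a, ω), hω⟩ with hpt
  have h3 : Path.Homotopic.Quotient.mk (PathConnectedSpace.somePath a a) =
      Path.Homotopic.Quotient.mk (Path.refl a) := Subsingleton.elim _ _
  have h4 := congrArg (fun p => Path.Homotopic.Quotient.map p f) h3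
  rw [← Path.Homotopic.Quotient.mk_map, ← Path.Homotopic.Quotient.mk_map] at h4
  have h5 : Path.Homotopic.Quotient.mk ((Path.refl a).map f.continuous) =
      Path.Homotopic.Quotient.refl (f a) := rfl
  rw [h5] at h4
  let q : Path (f a) (f a) := pt.cast rfl hend.symm
  have h6 : Path.Homotopic.Quotient.mk q = Path.Homotopic.Quotient.refl (f a) := by
    have h7 : ((Path.Homotopic.Quotient.mk
        ((PathConnectedSpace.somePath a a).map f.continuous)).trans
          (Path.Homotopic.Quotient.mk pt)).cast rfl h.symm = Path.Homotopic.Quotient.refl (f a) := h2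
    rw [h4, Path.Homotopic.Quotient.refl_trans] at h7
    exact h7
  obtain ⟨H⟩ : Path.Homotopic q (Path.refl (f a)) := Quotient.exact h6
  let g : C(I × I, B) := ⟨fun p => H p, H.continuous⟩
  have hg0 : ∀ s : I, g (s, 0) = f ((ContinuousMap.const I a) s) := fun s => H.source s
  refine joined_of_fam hSTF f a (EE.fam (ContinuousMap.const I a) g hg0) (fun s => H.target s) _ _
    ?_ ?_
  · refine EE.ext' rfl (fun t => ?_)
    change H (0, t) = ω t
    exact H.apply_zero t
  · refine EE.ext' rfl (fun t => ?_)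
    change H (1, t) = f a
    exact H.apply_one t

theorem fpc (hSTF : T_STF) : T_FPC := by
  intro A B _ _ _ f a₀
  have key : ∀ e : F0 f a₀, Joined e (star f a₀) := by
    intro e
    let α : Path (EE.pa f e.1) a₀ := PathConnectedSpace.somePath _ _
    let γ : Path (f (EE.pa f e.1)) (EE.endp f e.1) := EE.pth e.1
    let Γ : ℝ → B := fun x => if x ≤ 0 then f (α.extend (-x)) else γ.extend x
    have hΓ : Continuous Γ := by
      refine Continuous.if_le (f.continuous.comp (α.continuous_extend.comp continuous_neg))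
        γ.continuous_extend continuous_id continuous_const ?_
      intro x hx
      change x = 0 at hx
      subst hx
      simp
    have hΓ1 : Γ 1 = f a₀ := by
      have : ¬ (1 : ℝ) ≤ 0 := by norm_num
      simp only [Γ, if_neg this, Path.extend_one]
      exact F0.endp_eq f a₀ e
    have hΓneg : ∀ s : I, Γ (-(s : ℝ)) = f (α s) := by
      intro s
      have : -(s : ℝ) ≤ 0 := by linarith [s.2.1]
      simp only [Γ, if_pos this, neg_neg]
      rw [Path.extend_apply _ s.2]
    have hΓpos : ∀ s : I, Γ (s : ℝ) = γ s := by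
      intro s
      rcases eq_or_lt_of_le s.2.1 with h | h
      · have hs : s = 0 := Subtype.ext h.symm
        subst hs
        simp [Γ]
      · have : ¬ (s : ℝ) ≤ 0 := by linarith
        simp only [Γ, if_neg this]
        rw [Path.extend_apply _ s.2]
    let g : C(I × I, B) := ⟨fun p => Γ (-(p.1 : ℝ) + (1 + (p.1 : ℝ)) * (p.2 : ℝ)), by fun_prop⟩
    have hg0 : ∀ s : I, g (s, 0) = f (α.toContinuousMap s) := by
      intro s
      change Γ (-(s : ℝ) + (1 + (s : ℝ)) * ((0 : I) : ℝ)) = f (α s)
      rw [← hΓneg s]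
      simp
    let Φ : C(I, EE f) := EE.fam α.toContinuousMap g hg0
    have hend : ∀ s, EE.endp f (Φ s) = f a₀ := by
      intro s
      change Γ (-(s : ℝ) + (1 + (s : ℝ)) * ((1 : I) : ℝ)) = f a₀
      rw [← hΓ1]
      congr 1
      simp
    have h0 : Φ 0 = e.1 := by
      refine EE.ext' α.source (fun t => ?_)
      change Γ (-((0 : I) : ℝ) + (1 + ((0 : I) : ℝ)) * (t : ℝ)) = γ t
      rw [← hΓpos t]
      congr 1
      simp
    have hcl : ∀ s, clf f a₀ (Φ s) = BT.one (f a₀) := by
      refine hSTF A B f a₀ I Φ 0 hend ?_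
      rw [h0]
      exact e.2
    have h1 : Joined e (⟨Φ 1, hcl 1⟩ : F0 f a₀) :=
      joined_of_fam hSTF f a₀ Φ hend _ _ h0 rfl
    exact h1.trans (joined_star hSTF f a₀ ⟨Φ 1, hcl 1⟩ α.target)
  exact ⟨⟨star f a₀⟩, fun x y => (key x).trans (key y).symm⟩

end Pool.Agent.H73.FB
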